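import Mathlib
import Pool.Agent.Helper79.CF.Spec

set_option autoImplicit false

/-!
# Effective Conjecture F for real multiples: computability of the tests
-/

namespace Pool.Agent.Helper24.CF.CMP

open Finset
open Pool.Agent.Helper88.EL (comp_sum comp_exists comp_le comp_lt comp_toNat primrec_pow
  primrec_prime comp_pow2 comp_mul comp_add comp_sub comp_div comp_and comp_or comp_find)
open Pool.Agent.Helper79.CF

variable {α : Type*} [Primcodable α]

lemma comp_md {f g : α → ℕ} (hf : Computable f) (hg : Computable g) :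
    Computable fun a => f a % g a :=
  Computable₂.comp Primrec.nat_mod.to_comp hf hg

lemma comp_pw {f g : α → ℕ} (hf : Computable f) (hg : Computable g) :
    Computable fun a => f a ^ g a :=
  Computable₂.comp primrec_pow.to_comp hf hg

lemma comp_s {f : α → ℕ} (hf : Computable f) : Computable fun a => f a + 1 :=
  Computable.succ.comp hf

lemma comp_lg : Computable fun p : ℕ => Nat.log 2 p := by
  have hex : ∀ p : ℕ, ∃ k, decide (p < 2 ^ (k + 1)) = true := fun p =>
    ⟨p, by
      rw [decide_eq_true_eq]
      exact Nat.lt_two_pow_self.trans_le (Nat.pow_le_pow_right (by norm_num) (Nat.le_succ p))⟩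
  have hP : Computable₂ fun (p k : ℕ) => decide (p < 2 ^ (k + 1)) :=
    comp_lt Computable.fst (comp_pow2 (Computable.succ.comp Computable.snd))
  refine (comp_find hP hex).of_eq fun p => ?_
  rw [Nat.find_eq_iff]
  constructor
  · rw [decide_eq_true_eq]
    exact Nat.lt_pow_succ_log_self (by norm_num) p
  · intro k hk
    rw [decide_eq_true_eq, not_lt]
    exact Nat.pow_le_of_le_log (by
      rintro rfl
      simp at hk) hk

lemma comp_mv {P : α → ℕ → ℕ} {u x n : α → ℕ} (hP : Computable₂ P) (hu : Computable u)
    (hx : Computable x) (hn : Computable n) :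
    Computable fun a => mv (P a) (u a) (x a) (n a) :=
  comp_div (comp_mul (comp_add (comp_pow2 hu) hx) (Computable₂.comp hP Computable.id hn))
    (comp_pow2 hu)

lemma comp_amb {P : α → ℕ → ℕ} {u x n : α → ℕ} (hP : Computable₂ P) (hu : Computable u)
    (hx : Computable x) (hn : Computable n) :
    Computable fun a => amb (P a) (u a) (x a) (n a) :=
  comp_le (comp_pow2 hu) (comp_add (comp_md (comp_mul (comp_add (comp_pow2 hu) hx)
    (Computable₂.comp hP Computable.id hn)) (comp_pow2 hu)) (Computable₂.comp hP Computable.id hn))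

lemma comp_ell {j m : α → ℕ} (hj : Computable j) (hm : Computable m) :
    Computable fun a => ell (j a) (m a) := by
  have h1 : Computable₂ fun (z : α) (a : ℕ) =>
      (decide ((j z + 1) ^ a ≤ m z * (j z) ^ a)).toNat :=
    comp_toNat (comp_le (comp_pw (comp_s (hj.comp Computable.fst)) Computable.snd)
      (comp_mul (hm.comp Computable.fst) (comp_pw (hj.comp Computable.fst) Computable.snd)))
  exact comp_sum h1 (comp_mul (comp_s hj) hm)

lemma comp_JJ {P : α → ℕ → ℕ} {N : α → ℕ} (hP : Computable₂ P) (hN : Computable N) :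
    Computable fun a => JJ (P a) (N a) := by
  have h1 : Computable₂ fun (z : α) (n : ℕ) => 2 * P z n + 2 :=
    comp_add (comp_mul (Computable.const 2) hP) (Computable.const 2)
  exact comp_sum h1 (comp_s hN)

lemma comp_UU {P : α → ℕ → ℕ} {N : α → ℕ} (hP : Computable₂ P) (hN : Computable N) :
    Computable fun a => UU (P a) (N a) :=
  comp_add hN (comp_JJ hP hN)

lemma lift {P : α → ℕ → ℕ} (hP : Computable₂ P) :
    Computable₂ fun (z : α × ℕ) (n : ℕ) => P z.1 n :=
  Computable₂.comp hP (Computable.fst.comp Computable.fst) Computable.snd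

lemma comp_WW {P : α → ℕ → ℕ} {s : α → ℕ → Bool} {N x : α → ℕ} (hP : Computable₂ P)
    (hs : Computable₂ s) (hN : Computable N) (hx : Computable x) :
    Computable fun a => WW (P a) (s a) (N a) (x a) := by
  have hPl := lift hP
  have hJ : Computable fun z : α × ℕ => JJ (P z.1) (N z.1) := (comp_JJ hP hN).comp Computable.fst
  have hU : Computable fun z : α × ℕ => UU (P z.1) (N z.1) := (comp_UU hP hN).comp Computable.fst
  have hm : Computable fun z : α × ℕ => mv (P z.1) (UU (P z.1) (N z.1)) (x z.1) (z.2 + 1) :=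
    comp_mv hPl hU (hx.comp Computable.fst) (comp_s Computable.snd)
  have hpr : Computable fun z : α × ℕ =>
      (decide (mv (P z.1) (UU (P z.1) (N z.1)) (x z.1) (z.2 + 1)).Prime).toNat :=
    comp_toNat (primrec_prime.decide.to_comp.comp hm)
  have hsz : Computable fun z : α × ℕ => (s z.1 (z.2 + 1)).toNat :=
    comp_toNat (Computable₂.comp hs Computable.fst (comp_s Computable.snd))
  have h1 : Computable₂ fun (a : α) (n : ℕ) => (s a (n + 1)).toNat *
      ((decide (mv (P a) (UU (P a) (N a)) (x a) (n + 1)).Prime).toNat *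
        ell (JJ (P a) (N a)) (mv (P a) (UU (P a) (N a)) (x a) (n + 1))) :=
    comp_mul hsz (comp_mul hpr (comp_ell hJ hm))
  exact comp_sum h1 hN

lemma comp_W0 {P : α → ℕ → ℕ} {s : α → ℕ → Bool} {N : α → ℕ} (hP : Computable₂ P)
    (hs : Computable₂ s) (hN : Computable N) :
    Computable fun a => W0 (P a) (s a) (N a) := by
  have hJ : Computable fun z : α × ℕ => JJ (P z.1) (N z.1) := (comp_JJ hP hN).comp Computable.fst
  have hsz : Computable fun z : α × ℕ => (s z.1 (z.2 + 1)).toNat :=
    comp_toNat (Computable₂.comp hs Computable.fst (comp_s Computable.snd))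
  have h1 : Computable₂ fun (a : α) (n : ℕ) => (s a (n + 1)).toNat * JJ (P a) (N a) :=
    comp_mul hsz hJ
  exact comp_sum h1 hN

lemma comp_dev {P : α → ℕ → ℕ} {s : α → ℕ → Bool} {N x : α → ℕ} (hP : Computable₂ P)
    (hs : Computable₂ s) (hN : Computable N) (hx : Computable x) :
    Computable fun a => dev (P a) (s a) (N a) (x a) :=
  comp_add (comp_sub (comp_WW hP hs hN hx) (comp_W0 hP hs hN))
    (comp_sub (comp_W0 hP hs hN) (comp_WW hP hs hN hx))

lemma comp_bad {P : α → ℕ → ℕ} {s : α → ℕ → Bool} {K N x : α → ℕ} (hP : Computable₂ P)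
    (hs : Computable₂ s) (hK : Computable K) (hN : Computable N) (hx : Computable x) :
    Computable fun a => bad (P a) (s a) (K a) (N a) (x a) := by
  have hlog : Computable fun a => Nat.log 2 (N a) := comp_lg.comp hN
  have h1 : Computable fun a => decide (JJ (P a) (N a) * N a <
      (Nat.log 2 (N a) + 1) ^ K a * dev (P a) (s a) (N a) (x a)) :=
    comp_lt (comp_mul (comp_JJ hP hN) hN) (comp_mul (comp_pw (comp_s hlog) hK)
      (comp_dev hP hs hN hx))
  have h2 : Computable₂ fun (a : α) (n : ℕ) => amb (P a) (UU (P a) (N a)) (x a) (n + 1) :=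
    comp_amb (lift hP) ((comp_UU hP hN).comp Computable.fst) (hx.comp Computable.fst)
      (comp_s Computable.snd)
  exact comp_or h1 (comp_exists h2 hN)

lemma comp_sc {K a r : α → ℕ} (hK : Computable K) (ha : Computable a) (hr : Computable r) :
    Computable fun z => sc (K z) (a z) (r z) :=
  comp_add (comp_pow2 ha) (comp_div (comp_mul (comp_pow2 ha) hr)
    (comp_pw (comp_s ha) (comp_add hK (Computable.const 2))))

lemma comp_up1 {f : α → ℕ} (hf : Computable f) : Computable fun a => (f a).unpair.1 :=
  Computable.fst.comp (Primrec.unpair.to_comp.comp hf)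

lemma comp_up2 {f : α → ℕ} (hf : Computable f) : Computable fun a => (f a).unpair.2 :=
  Computable.snd.comp (Primrec.unpair.to_comp.comp hf)

/-- CMP -/
theorem main : Pool.Agent.Helper79.CF.S_CMP := by
  intro p s hp hs
  constructor
  · have hP : Computable₂ fun (k : ℕ) (n : ℕ) => p k.unpair.1.unpair.1 n :=
      Computable₂.comp hp (comp_up1 (comp_up1 Computable.fst)) Computable.snd
    exact comp_UU hP (comp_sc (comp_up2 (comp_up1 Computable.id))
      (comp_up1 (comp_up2 Computable.id)) (comp_up2 (comp_up2 Computable.id)))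
  · have hP : Computable₂ fun (k : ℕ × ℕ) (n : ℕ) => p k.1.unpair.1.unpair.1 n :=
      Computable₂.comp hp (comp_up1 (comp_up1 (Computable.fst.comp Computable.fst))) Computable.snd
    have hS : Computable₂ fun (k : ℕ × ℕ) (n : ℕ) => s k.1.unpair.1.unpair.1 n :=
      Computable₂.comp hs (comp_up1 (comp_up1 (Computable.fst.comp Computable.fst))) Computable.snd
    have hK : Computable fun k : ℕ × ℕ => k.1.unpair.1.unpair.2 :=
      comp_up2 (comp_up1 Computable.fst)
    have ha : Computable fun k : ℕ × ℕ => k.1.unpair.2.unpair.1 :=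
      comp_up1 (comp_up2 Computable.fst)
    have hr : Computable fun k : ℕ × ℕ => k.1.unpair.2.unpair.2 :=
      comp_up2 (comp_up2 Computable.fst)
    have h1 : Computable fun k : ℕ × ℕ => decide (k.1.unpair.2.unpair.2 ≤
        (k.1.unpair.2.unpair.1 + 1) ^ (k.1.unpair.1.unpair.2 + 2)) :=
      comp_le hr (comp_pw (comp_s ha) (comp_add hK (Computable.const 2)))
    have h2 := comp_bad hP hS hK (comp_sc hK ha hr) (Computable.snd (α := ℕ) (β := ℕ))
    exact comp_and h1 h2

end Pool.Agent.Helper24.CF.CMP
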